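import Pool.Agent.V11231.VCF.Thick

/-! Counting faults. -/

set_option autoImplicit false
set_option linter.unusedSectionVars false
set_option linter.unusedVariables false

namespace Pool.Agent.V11231.SMF

open Finset Pool.Agent.V11231.FLT Pool.Agent.V11231.VCF

variable {E R : Type} [Fintype E] [DecidableEq E] [Fintype R] [Nonempty R]

open Classical in
/-- **Rejection.** The circuits accept with probability at most `1 / 4` for most of the hidden
inputs. -/
lemma thick_reject2 {D : ℕ} (hD : 0 < D) (C : R → LiteralCircuit E) (S : Set E) (base : E → Bool)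
    (good : (E → Fin D) → Prop)
    (hbad : ((univ.filter fun f : E → Fin D => ¬ good f).card : ℝ) ≤
      1 / 20 * (D : ℝ) ^ Fintype.card E)
    (h : ∀ f : E → Fin D, good f → acceptance C (mix S base f) ≤ 1 / 4) :
    ((univ.filter fun v : R × (E → Fin D) =>
        (C v.1).Accepts (mix S base v.2) (flt v.2)).card : ℝ) ≤
      3 / 10 * (Fintype.card (R × (E → Fin D)) : ℝ) := by
  have hR : (0 : ℝ) < Fintype.card R := by exact_mod_cast Fintype.card_pos
  have hcard : (Fintype.card (E → Fin D) : ℝ) = (D : ℝ) ^ Fintype.card E := by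
    rw [Fintype.card_fun, Fintype.card_fin]
    push_cast
    rfl
  set T : Finset (R × (E → Fin D)) :=
    univ.filter fun v => (C v.1).Accepts (mix S base v.2) (flt v.2) with hT
  have h1 : T.card = ∑ f : E → Fin D, (T.filter fun w => w.2 = f).card :=
    Finset.card_eq_sum_card_fiberwise (fun w _ => Finset.mem_coe.mpr (Finset.mem_univ _))
  have h2 : ∀ f : E → Fin D, ((T.filter fun w => w.2 = f).card : ℝ) ≤
      1 / 4 * (Fintype.card R : ℝ) + (if good f then 0 else (Fintype.card R : ℝ)) := by
    intro f
    by_cases hf : good f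
    · rw [if_pos hf, add_zero]
      have h4 := h f hf
      unfold acceptance at h4
      rw [div_le_iff₀ (by rw [Nat.card_eq_fintype_card]; exact hR),
        Nat.card_eq_fintype_card (α := R)] at h4
      refine le_trans ?_ h4
      rw [Nat.card_eq_fintype_card, Fintype.card_subtype]
      have h5 : (T.filter fun w => w.2 = f).card ≤
          (univ.filter fun ρ : R => (C ρ).Accepts (mix S base f) ∅).card := by
        refine Finset.card_le_card_of_injOn (fun w => w.1) ?_ ?_
        · intro w hw
          simp only [hT, Finset.coe_filter, Finset.mem_filter, Finset.mem_univ, true_and,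
            Set.mem_setOf_eq] at hw ⊢
          rw [← hw.2]
          exact accepts_mono _ (lit_empty _ _) hw.1
        · intro w hw w' hw' hww
          simp only [Finset.coe_filter, Set.mem_setOf_eq] at hw hw'
          exact Prod.ext hww (hw.2.trans hw'.2.symm)
      exact_mod_cast h5
    · rw [if_neg hf]
      have h5 : (T.filter fun w => w.2 = f).card ≤ Fintype.card R := by
        rw [← Finset.card_univ]
        refine Finset.card_le_card_of_injOn (fun w => w.1)
          (fun _ _ => Finset.mem_coe.mpr (Finset.mem_univ _)) ?_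
        intro w hw w' hw' hww
        simp only [Finset.coe_filter, Set.mem_setOf_eq] at hw hw'
        exact Prod.ext hww (hw.2.trans hw'.2.symm)
      have h6 : ((T.filter fun w => w.2 = f).card : ℝ) ≤ Fintype.card R := by exact_mod_cast h5
      linarith
  have h3 : (T.card : ℝ) ≤ ∑ f : E → Fin D,
      (1 / 4 * (Fintype.card R : ℝ) + (if good f then 0 else (Fintype.card R : ℝ))) := by
    rw [h1]
    push_cast
    exact Finset.sum_le_sum fun f _ => h2 f
  refine h3.trans ?_
  rw [Finset.sum_add_distrib, Finset.sum_const, Finset.card_univ, nsmul_eq_mul]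
  have h4 : ∑ f : E → Fin D, (if good f then (0 : ℝ) else (Fintype.card R : ℝ)) =
      ((univ.filter fun f : E → Fin D => ¬ good f).card : ℝ) * Fintype.card R := by
    rw [← nsmul_eq_mul, ← Finset.sum_const, Finset.sum_filter]
    refine Finset.sum_congr rfl fun f _ => ?_
    by_cases hf : good f
    · simp [hf]
    · simp [hf]
  rw [h4, Fintype.card_prod]
  push_cast
  rw [show ((Fintype.card (E → Fin D) : ℕ) : ℝ) = (D : ℝ) ^ Fintype.card E from hcard]
  have h5 := mul_le_mul_of_nonneg_right hbad hR.le
  linarith

open Classical in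
/-- a coordinate that does not matter is zero with probability `1 / D` -/
lemma card_zero {D : ℕ} (hD : 0 < D) (P : (E → Fin D) → Prop) (p : E)
    (hP : ∀ (f : E → Fin D) (x : Fin D), P (Function.update f p x) ↔ P f) :
    (D : ℝ) * ((univ.filter fun f : E → Fin D => P f ∧ (f p : ℕ) = 0).card : ℝ) =
      ((univ.filter fun f : E → Fin D => P f).card : ℝ) := by
  have h1 : (univ.filter fun f : E → Fin D => P f).card =
      ∑ x : Fin D, ((univ.filter fun f : E → Fin D => P f).filter fun f => f p = x).card :=
    Finset.card_eq_sum_card_fiberwise (fun w _ => Finset.mem_coe.mpr (Finset.mem_univ _))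
  have h2 : ∀ x : Fin D, ((univ.filter fun f : E → Fin D => P f).filter fun f => f p = x).card =
      (univ.filter fun f : E → Fin D => P f ∧ (f p : ℕ) = 0).card := by
    intro x
    refine Finset.card_bij' (fun f _ => Function.update f p ⟨0, hD⟩)
      (fun f _ => Function.update f p x) ?_ ?_ ?_ ?_
    · intro f hf
      simp only [Finset.mem_filter, Finset.mem_univ, true_and] at hf ⊢
      exact ⟨(hP f _).mpr hf.1, by simp⟩
    · intro f hf
      simp only [Finset.mem_filter, Finset.mem_univ, true_and] at hf ⊢
      exact ⟨(hP f _).mpr hf.1, by simp⟩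
    · intro f hf
      simp only [Finset.mem_filter, Finset.mem_univ, true_and] at hf
      rw [Function.update_idem, ← hf.2, Function.update_eq_self]
    · intro f hf
      simp only [Finset.mem_filter, Finset.mem_univ, true_and] at hf
      rw [Function.update_idem]
      have h3 : f p = ⟨0, hD⟩ := Fin.ext hf.2
      rw [← h3, Function.update_eq_self]
  rw [h1, Finset.sum_congr rfl fun x _ => h2 x, Finset.sum_const, Finset.card_univ,
    Fintype.card_fin, smul_eq_mul]
  push_cast
  rfl

open Classical in
/-- pairs of coordinates, none of which is a pair of zeros -/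
lemma card_pairs {D : ℕ} (hD : 0 < D) (P : (E → Fin D) → Prop) {ι : Type} [DecidableEq ι]
    (p q : ι → E) (hpq : ∀ i j, p i ≠ q j) (hp : Function.Injective p)
    (hq : Function.Injective q)
    (hPp : ∀ (i : ι) (f : E → Fin D) (x : Fin D), P (Function.update f (p i) x) ↔ P f)
    (hPq : ∀ (i : ι) (f : E → Fin D) (x : Fin D), P (Function.update f (q i) x) ↔ P f)
    (I : Finset ι) :
    ((univ.filter fun f : E → Fin D =>
      P f ∧ ∀ i ∈ I, ¬ ((f (p i) : ℕ) = 0 ∧ (f (q i) : ℕ) = 0)).card : ℝ) =
      (1 - 1 / (D : ℝ) ^ 2) ^ I.card * ((univ.filter fun f : E → Fin D => P f).card : ℝ) := by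
  have hDR : (0 : ℝ) < D := by exact_mod_cast hD
  induction I using Finset.induction_on with
  | empty =>
    simp
  | insert a I ha ih =>
    set G : (E → Fin D) → Prop := fun f =>
      P f ∧ ∀ i ∈ I, ¬ ((f (p i) : ℕ) = 0 ∧ (f (q i) : ℕ) = 0) with hG
    have hGp : ∀ (f : E → Fin D) (x : Fin D), G (Function.update f (p a) x) ↔ G f := by
      intro f x
      rw [hG]
      dsimp only
      rw [hPp]
      refine and_congr_right fun _ => forall_congr' fun i => forall_congr' fun hi => ?_
      have h1 : p i ≠ p a := fun h => ha (by rw [← hp h]; exact hi)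
      have h2 : q i ≠ p a := fun h => hpq a i h.symm
      rw [Function.update_of_ne h1, Function.update_of_ne h2]
    have hGq : ∀ (f : E → Fin D) (x : Fin D), G (Function.update f (q a) x) ↔ G f := by
      intro f x
      rw [hG]
      dsimp only
      rw [hPq]
      refine and_congr_right fun _ => forall_congr' fun i => forall_congr' fun hi => ?_
      have h1 : q i ≠ q a := fun h => ha (by rw [← hq h]; exact hi)
      have h2 : p i ≠ q a := hpq i a
      rw [Function.update_of_ne h1, Function.update_of_ne h2]
    have e1 := card_zero hD G (p a) hGp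
    have e2 := card_zero hD (fun f => G f ∧ (f (p a) : ℕ) = 0) (q a) (by
      intro f x
      rw [hGq]
      have h2 : p a ≠ q a := hpq a a
      rw [Function.update_of_ne h2])
    have e3 : ((univ.filter fun f : E → Fin D =>
        P f ∧ ∀ i ∈ insert a I, ¬ ((f (p i) : ℕ) = 0 ∧ (f (q i) : ℕ) = 0)).card : ℝ) +
        ((univ.filter fun f : E → Fin D => (G f ∧ (f (p a) : ℕ) = 0) ∧ (f (q a) : ℕ) = 0).card : ℝ) =
        ((univ.filter fun f : E → Fin D => G f).card : ℝ) := by
      have h1 := Finset.card_filter_add_card_filter_not (s := univ.filter fun f : E → Fin D => G f)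
        (p := fun f => (f (p a) : ℕ) = 0 ∧ (f (q a) : ℕ) = 0)
      rw [Finset.filter_filter, Finset.filter_filter] at h1
      have h2 : (univ.filter fun f : E → Fin D =>
          P f ∧ ∀ i ∈ insert a I, ¬ ((f (p i) : ℕ) = 0 ∧ (f (q i) : ℕ) = 0)) =
          univ.filter fun f : E → Fin D => G f ∧ ¬ ((f (p a) : ℕ) = 0 ∧ (f (q a) : ℕ) = 0) := by
        ext f
        simp only [Finset.mem_filter, Finset.mem_univ, true_and, hG, Finset.forall_mem_insert]
        tauto
      have h3 : (univ.filter fun f : E → Fin D => (G f ∧ (f (p a) : ℕ) = 0) ∧ (f (q a) : ℕ) = 0) =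
          univ.filter fun f : E → Fin D => G f ∧ ((f (p a) : ℕ) = 0 ∧ (f (q a) : ℕ) = 0) := by
        ext f
        simp only [Finset.mem_filter, Finset.mem_univ, true_and]
        tauto
      rw [h2, h3]
      have h4 : ((univ.filter fun f : E → Fin D =>
          G f ∧ ((f (p a) : ℕ) = 0 ∧ (f (q a) : ℕ) = 0)).card : ℝ) +
          ((univ.filter fun f : E → Fin D =>
          G f ∧ ¬ ((f (p a) : ℕ) = 0 ∧ (f (q a) : ℕ) = 0)).card : ℝ) =
          ((univ.filter fun f : E → Fin D => G f).card : ℝ) := by exact_mod_cast h1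
      linarith
    rw [Finset.card_insert_of_notMem ha, pow_succ]
    have e1' : (D : ℝ) * ((univ.filter fun f : E → Fin D => G f ∧ (f (p a) : ℕ) = 0).card : ℝ) =
        ((univ.filter fun f : E → Fin D => G f).card : ℝ) := by convert e1
    have e2' : (D : ℝ) * ((univ.filter fun f : E → Fin D =>
        (G f ∧ (f (p a) : ℕ) = 0) ∧ (f (q a) : ℕ) = 0).card : ℝ) =
        ((univ.filter fun f : E → Fin D => G f ∧ (f (p a) : ℕ) = 0).card : ℝ) := by convert e2
    have e4 : ((univ.filter fun f : E → Fin D =>
        (G f ∧ (f (p a) : ℕ) = 0) ∧ (f (q a) : ℕ) = 0).card : ℝ) =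
        1 / (D : ℝ) ^ 2 * ((univ.filter fun f : E → Fin D => G f).card : ℝ) := by
      rw [← e1', ← e2']
      field_simp
    have e5 : ((univ.filter fun f : E → Fin D => G f).card : ℝ) =
        (1 - 1 / (D : ℝ) ^ 2) ^ I.card * ((univ.filter fun f : E → Fin D => P f).card : ℝ) := ih
    rw [e4] at e3
    have e6 : ((univ.filter fun f : E → Fin D =>
        P f ∧ ∀ i ∈ insert a I, ¬ ((f (p i) : ℕ) = 0 ∧ (f (q i) : ℕ) = 0)).card : ℝ) =
        (1 - 1 / (D : ℝ) ^ 2) * ((univ.filter fun f : E → Fin D => G f).card : ℝ) := by linarith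
    rw [e6, e5]
    ring

open Classical in
/-- few functions have many zeros in `B` -/
lemma card_many {D : ℕ} (hD : 0 < D) (B : Finset E) (N : ℕ) :
    (N : ℝ) * D * ((univ.filter fun f : E → Fin D =>
      N < (B.filter fun e => (f e : ℕ) = 0).card).card : ℝ) ≤
      B.card * (D : ℝ) ^ Fintype.card E := by
  have hDR : (0 : ℝ) < D := by exact_mod_cast hD
  have hcard : ((univ : Finset (E → Fin D)).card : ℝ) = (D : ℝ) ^ Fintype.card E := by
    rw [Finset.card_univ, Fintype.card_fun, Fintype.card_fin]
    push_cast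
    rfl
  have h1 : ∑ f : E → Fin D, ((B.filter fun e => (f e : ℕ) = 0).card : ℝ) =
      ∑ e ∈ B, ((univ.filter fun f : E → Fin D => (f e : ℕ) = 0).card : ℝ) := by
    have h2 : ∀ f : E → Fin D, ((B.filter fun e => (f e : ℕ) = 0).card : ℝ) =
        ∑ e ∈ B, if (f e : ℕ) = 0 then (1 : ℝ) else 0 := by
      intro f
      rw [Finset.sum_boole]
    rw [Finset.sum_congr rfl fun f _ => h2 f, Finset.sum_comm]
    refine Finset.sum_congr rfl fun e _ => ?_
    rw [Finset.sum_boole]
  have h2 : ∀ e ∈ B, (D : ℝ) * ((univ.filter fun f : E → Fin D => (f e : ℕ) = 0).card : ℝ) =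
      (D : ℝ) ^ Fintype.card E := by
    intro e _
    have h3 := card_zero hD (fun _ : E → Fin D => True) e (fun _ _ => Iff.rfl)
    simp only [true_and, Finset.filter_true] at h3
    rw [h3, hcard]
  have h3 : (D : ℝ) * ∑ f : E → Fin D, ((B.filter fun e => (f e : ℕ) = 0).card : ℝ) =
      B.card * (D : ℝ) ^ Fintype.card E := by
    rw [h1, Finset.mul_sum, Finset.sum_congr rfl h2, Finset.sum_const, nsmul_eq_mul]
  rw [← h3]
  have h4 : (N : ℝ) * ((univ.filter fun f : E → Fin D =>
      N < (B.filter fun e => (f e : ℕ) = 0).card).card : ℝ) ≤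
      ∑ f : E → Fin D, ((B.filter fun e => (f e : ℕ) = 0).card : ℝ) := by
    calc (N : ℝ) * ((univ.filter fun f : E → Fin D =>
          N < (B.filter fun e => (f e : ℕ) = 0).card).card : ℝ)
        = ∑ f ∈ univ.filter fun f : E → Fin D =>
          N < (B.filter fun e => (f e : ℕ) = 0).card, (N : ℝ) := by
          rw [Finset.sum_const, nsmul_eq_mul, mul_comm]
      _ ≤ ∑ f ∈ univ.filter fun f : E → Fin D =>
          N < (B.filter fun e => (f e : ℕ) = 0).card,
          ((B.filter fun e => (f e : ℕ) = 0).card : ℝ) := by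
          refine Finset.sum_le_sum fun f hf => ?_
          rw [Finset.mem_filter] at hf
          exact_mod_cast hf.2.le
      _ ≤ _ := Finset.sum_le_sum_of_subset_of_nonneg (Finset.filter_subset _ _)
          fun f _ _ => Nat.cast_nonneg _
  calc (N : ℝ) * D * ((univ.filter fun f : E → Fin D =>
        N < (B.filter fun e => (f e : ℕ) = 0).card).card : ℝ)
      = D * ((N : ℝ) * ((univ.filter fun f : E → Fin D =>
        N < (B.filter fun e => (f e : ℕ) = 0).card).card : ℝ)) := by ring
    _ ≤ _ := mul_le_mul_of_nonneg_left h4 hDR.le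

end Pool.Agent.V11231.SMF
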