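import Pool.Agent.V11231.SMF.Host

/-! The lower bound with explicit parameters. -/

set_option autoImplicit false
set_option linter.unusedSectionVars false
set_option linter.unusedVariables false

namespace Pool.Agent.V11231.SMF

open Finset Pool.Agent.V11231.FLT Pool.Agent.V11231.VCF
open Pool.Agent.H560R2 (Has3)
open Pool.Agent.W969.MC (RC)

variable {U D K : ℕ}

open Classical in
theorem core (hD : 0 < D) {n N J M : ℕ} (hN : 0 < N) (hK : 0 < K) (hJM : J + M ≤ K)
    (hsz : 50 * (n * K) ≤ N * D)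
    (hbad : (1 - 1 / (D : ℝ)) ^ J + J / D * (1 - 1 / (D : ℝ) ^ 2) ^ M ≤ 3 / 100) (e : ℝ)
    (he : e < 9 / 20)
    {Λ : Type} [Fintype Λ] [Nonempty Λ] (yes no : Λ → Finset ℤ)
    (hyes : ∀ l, (yes l).card ≤ n ∧ (∀ z ∈ yes l, 0 ≤ z ∧ (z + 1) * (2 * K) ≤ U) ∧ Has3 (yes l))
    (hno : ∀ l, (no l).card ≤ n ∧ ¬ Deg3 (no l)) (s : ℕ)
    (hhard : ∀ C : RC ℤ, C.T = ∅ → C.S ≤ s →
      ((univ.filter fun l : Λ => C.acc fun z => decide (z ∈ yes l)).card : ℝ) / Fintype.card Λ ≤
        ((univ.filter fun l : Λ => C.acc fun z => decide (z ∈ no l)).card : ℝ) / Fintype.card Λ + e)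
    {R : Type} [Fintype R] [Nonempty R] (C : R → LiteralCircuit (Fin U)) (hs : ∀ r, (C r).s ≤ s)
    (h1 : ∀ x : Fin U → Bool, size x ≤ N → HasSum x → 4 / 5 ≤ faultyAcceptance C D x)
    (h2 : ∀ x : Fin U → Bool, size x ≤ N → ¬ HasSum x → acceptance C x ≤ 1 / 4) : False := by
  have hF : Nonempty (Fin D) := ⟨⟨0, hD⟩⟩
  have hT : ∀ ρ, (toRC (C ρ)).T = ∅ := fun _ => rfl
  have hΛ : (0 : ℝ) < Fintype.card Λ := by exact_mod_cast Fintype.card_pos
  have hΩ : (0 : ℝ) < Fintype.card (R × (Fin U → Fin D)) := by exact_mod_cast Fintype.card_pos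
  obtain ⟨P, hP⟩ : ∃ P : R × (Fin U → Fin D) → Finset ℤ → Prop, P = fun v S =>
      (C v.1).Accepts (mix (posZ U K S) (fun _ => false) v.2) (flt v.2) := ⟨_, rfl⟩
  have hω : ∀ v : R × (Fin U → Fin D), ((univ.filter fun l : Λ => P v (yes l)).card : ℝ) ≤
      ((univ.filter fun l : Λ => P v (no l)).card : ℝ) + e * Fintype.card Λ := by
    intro v
    obtain ⟨σ, c, hσ⟩ := host_lsubZ (U := U) K v.2
    obtain ⟨C', hsize, -, hT', hacc⟩ := Pool.Agent.Y630.TF.subst (toRC (C v.1)) (0 : ℤ) σ c
    have hT2 : C'.T = ∅ := hT'.mpr (hT v.1)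
    have h3 : ∀ S : Finset ℤ, C'.acc (fun z => decide (z ∈ S)) ↔ P v S := by
      intro S
      rw [hacc, ← hσ S, ← lit_eq, hP]
      exact toRC_acc _ _ _
    have h6 : C'.S ≤ s := by
      have h4 : C'.size = C'.S := by
        unfold Pool.Agent.W969.MC.RC.size
        rw [hT2, Finset.sum_empty, Nat.add_zero]
      have h5 : (toRC (C v.1)).size = (toRC (C v.1)).S := by
        unfold Pool.Agent.W969.MC.RC.size
        rw [hT v.1, Finset.sum_empty, Nat.add_zero]
      rw [← h4, hsize, h5]
      exact hs v.1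
    have h4 := hhard C' hT2 h6
    simp only [h3] at h4
    rw [div_le_iff₀ hΛ, add_mul, div_mul_cancel₀ _ hΛ.ne'] at h4
    exact h4
  have hyes' : ∀ l, 3 / 4 * (Fintype.card (R × (Fin U → Fin D)) : ℝ) ≤
      ((univ.filter fun v => P v (yes l)).card : ℝ) := by
    intro l
    obtain ⟨hc, hr, x, hx, y, hy, z, hz, hxy, hxz, hyz, hsum⟩ := hyes l
    obtain ⟨a, rfl⟩ := Int.eq_ofNat_of_zero_le (hr x hx).1
    obtain ⟨b, rfl⟩ := Int.eq_ofNat_of_zero_le (hr y hy).1
    obtain ⟨c, rfl⟩ := Int.eq_ofNat_of_zero_le (hr z hz).1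
    have ha := (hr _ hx).2
    have hb := (hr _ hy).2
    have hc' := (hr _ hz).2
    have ha2 : a * (2 * K) + 2 * K ≤ U := by
      have : ((a : ℤ) + 1) * (2 * K) = ((a * (2 * K) + 2 * K : ℕ) : ℤ) := by
        push_cast
        ring
      rw [this] at ha
      exact_mod_cast ha
    have hb2 : b * (2 * K) + 2 * K ≤ U := by
      have : ((b : ℤ) + 1) * (2 * K) = ((b * (2 * K) + 2 * K : ℕ) : ℤ) := by
        push_cast
        ring
      rw [this] at hb
      exact_mod_cast hb
    have hc2 : c * (2 * K) + 2 * K ≤ U := by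
      have : ((c : ℤ) + 1) * (2 * K) = ((c * (2 * K) + 2 * K : ℕ) : ℤ) := by
        push_cast
        ring
      rw [this] at hc'
      exact_mod_cast hc'
    have hab : a ≠ b := fun h => hxy (by rw [h])
    have hac : a ≠ c := fun h => hxz (by rw [h])
    have hbc : b ≠ c := fun h => hyz (by rw [h])
    have hs' : a + b = c := by exact_mod_cast hsum
    have key := thick_accept hD C (posZ U K (yes l)) (fun _ => false)
      (fun f => Good K a b c f ∧ size (mix (posZ U K (yes l)) (fun _ => false) f) ≤ N) ?_ ?_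
    · rw [hP]
      exact key
    · have h5 := card_not_good (U := U) (K := K) hD (J := J) (M := M) hab hac hbc ha2 hb2 hc2 hJM
      have h6 := card_large (U := U) (K := K) hD (yes l) N
        ((Nat.mul_le_mul_left 50 (Nat.mul_le_mul_right K hc)).trans hsz) hN
      have h7 : ((univ.filter fun f : Fin U → Fin D =>
          ¬ (Good K a b c f ∧ size (mix (posZ U K (yes l)) (fun _ => false) f) ≤ N)).card : ℝ) ≤
          ((univ.filter fun f : Fin U → Fin D => ¬ Good K a b c f).card : ℝ) +
          ((univ.filter fun f : Fin U → Fin D =>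
            N < size (mix (posZ U K (yes l)) (fun _ => false) f)).card : ℝ) := by
        have h8 : (univ.filter fun f : Fin U → Fin D =>
          ¬ (Good K a b c f ∧ size (mix (posZ U K (yes l)) (fun _ => false) f) ≤ N)) ⊆
          (univ.filter fun f : Fin U → Fin D => ¬ Good K a b c f) ∪
          (univ.filter fun f : Fin U → Fin D =>
            N < size (mix (posZ U K (yes l)) (fun _ => false) f)) := by
          intro f hf
          rw [Finset.mem_filter] at hf
          rw [Finset.mem_union, Finset.mem_filter, Finset.mem_filter]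
          by_cases hg : Good K a b c f
          · right
            refine ⟨Finset.mem_univ _, ?_⟩
            by_contra h9
            exact hf.2 ⟨hg, not_lt.mp h9⟩
          · left
            exact ⟨Finset.mem_univ _, hg⟩
        have h9 := (Finset.card_le_card h8).trans (Finset.card_union_le _ _)
        exact_mod_cast h9
      have h10 : (0 : ℝ) ≤ (D : ℝ) ^ Fintype.card (Fin U) := by positivity
      have h11 := mul_le_mul_of_nonneg_right hbad h10
      refine le_trans (le_of_eq ?_) (h7.trans ?_)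
      · congr!
      · linarith
    · rintro f ⟨hg, hsz'⟩
      exact h1 _ hsz' (has_sum hab hac hbc hs' hx hy hz f hg)
  have hno' : ∀ l, ((univ.filter fun v => P v (no l)).card : ℝ) ≤
      3 / 10 * (Fintype.card (R × (Fin U → Fin D)) : ℝ) := by
    intro l
    obtain ⟨hc, hn⟩ := hno l
    have key := thick_reject2 hD C (posZ U K (no l)) (fun _ => false)
      (fun f => size (mix (posZ U K (no l)) (fun _ => false) f) ≤ N) ?_ ?_
    · rw [hP]
      exact key
    · have h6 := card_large (U := U) (K := K) hD (no l) N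
        ((Nat.mul_le_mul_left 50 (Nat.mul_le_mul_right K hc)).trans hsz) hN
      have h10 : (0 : ℝ) ≤ (D : ℝ) ^ Fintype.card (Fin U) := by positivity
      simp only [not_le]
      linarith
    · intro f hf
      exact h2 _ hf (no_sum hK hn f)
  have hswap : ∀ F : Λ → Finset ℤ, ∑ l : Λ, ((univ.filter fun v => P v (F l)).card : ℝ) =
      ∑ v : R × (Fin U → Fin D), ((univ.filter fun l : Λ => P v (F l)).card : ℝ) := by
    intro F
    simp only [Finset.card_filter]
    push_cast
    rw [Finset.sum_comm]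
  have s1 := Finset.sum_le_sum fun l (_ : l ∈ (univ : Finset Λ)) => hyes' l
  have s2 := Finset.sum_le_sum fun l (_ : l ∈ (univ : Finset Λ)) => hno' l
  have s3 := Finset.sum_le_sum fun v (_ : v ∈ (univ : Finset (R × (Fin U → Fin D)))) => hω v
  rw [Finset.sum_const, Finset.card_univ, nsmul_eq_mul, hswap] at s1
  rw [Finset.sum_const, Finset.card_univ, nsmul_eq_mul, hswap] at s2
  rw [Finset.sum_add_distrib, Finset.sum_const, Finset.card_univ, nsmul_eq_mul] at s3
  have hprod : (0 : ℝ) < Fintype.card Λ * Fintype.card (R × (Fin U → Fin D)) := mul_pos hΛ hΩ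
  have s4 : (Fintype.card Λ : ℝ) * (3 / 4 * (Fintype.card (R × (Fin U → Fin D)) : ℝ)) ≤
      (Fintype.card Λ : ℝ) * (3 / 10 * (Fintype.card (R × (Fin U → Fin D)) : ℝ)) +
      (Fintype.card (R × (Fin U → Fin D)) : ℝ) * (e * Fintype.card Λ) :=
    s1.trans (s3.trans (add_le_add_left s2 _))
  have s5 : e * ((Fintype.card Λ : ℝ) * Fintype.card (R × (Fin U → Fin D))) <
      9 / 20 * ((Fintype.card Λ : ℝ) * Fintype.card (R × (Fin U → Fin D))) :=
    mul_lt_mul_of_pos_right he hprod
  linarith

end Pool.Agent.V11231.SMF
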