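import Pool.Agent.V11231.SMF.Core

/-! 3SUM and circuits with unreliable negations. -/

set_option autoImplicit false
set_option linter.unusedSectionVars false
set_option linter.unusedVariables false

namespace Pool.Agent.V11231.SMF

open Finset Pool.Agent.V11231.FLT Pool.Agent.V11231.VCF Filter
open Pool.Agent.H560R2 (Has3)
open Pool.Agent.W969.MC (RC)

lemma bad_small (D : ℕ) (hD : 1 ≤ D) :
    (1 - 1 / (D : ℝ)) ^ (5 * D) + ((5 * D : ℕ) : ℝ) / D * (1 - 1 / (D : ℝ) ^ 2) ^ (7 * D ^ 2) ≤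
      3 / 100 := by
  have hDR : (1 : ℝ) ≤ D := by exact_mod_cast hD
  have hD0 : (0 : ℝ) < D := by linarith
  have h1 : 1 / (D : ℝ) ≤ 1 := by
    rw [div_le_one hD0]
    exact hDR
  have h2 : 1 / (D : ℝ) ^ 2 ≤ 1 := by
    rw [div_le_one (by positivity)]
    exact one_le_pow₀ hDR
  have he1 : (2.7 : ℝ) ≤ Real.exp 1 := by
    have := Real.exp_one_gt_d9
    linarith
  have h3 : (1 - 1 / (D : ℝ)) ^ (5 * D) ≤ Real.exp (-5) := by
    have h4 : 1 - 1 / (D : ℝ) ≤ Real.exp (-(1 / (D : ℝ))) := by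
      have := Real.add_one_le_exp (-(1 / (D : ℝ)))
      linarith
    refine (pow_le_pow_left₀ (by linarith) h4 _).trans (le_of_eq ?_)
    rw [← Real.exp_nat_mul]
    congr 1
    push_cast
    field_simp
  have h5 : (1 - 1 / (D : ℝ) ^ 2) ^ (7 * D ^ 2) ≤ Real.exp (-7) := by
    have h4 : 1 - 1 / (D : ℝ) ^ 2 ≤ Real.exp (-(1 / (D : ℝ) ^ 2)) := by
      have := Real.add_one_le_exp (-(1 / (D : ℝ) ^ 2))
      linarith
    refine (pow_le_pow_left₀ (by linarith) h4 _).trans (le_of_eq ?_)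
    rw [← Real.exp_nat_mul]
    congr 1
    push_cast
    field_simp
  have h6 : Real.exp (-5) ≤ 1 / 100 := by
    rw [Real.exp_neg, ← one_div]
    apply one_div_le_one_div_of_le (by norm_num)
    have h7 : Real.exp 5 = Real.exp 1 ^ 5 := by
      rw [← Real.exp_nat_mul]
      norm_num
    rw [h7]
    calc (100 : ℝ) ≤ 2.7 ^ 5 := by norm_num
      _ ≤ _ := pow_le_pow_left₀ (by norm_num) he1 5
  have h7 : Real.exp (-7) ≤ 1 / 500 := by
    rw [Real.exp_neg, ← one_div]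
    apply one_div_le_one_div_of_le (by norm_num)
    have h7 : Real.exp 7 = Real.exp 1 ^ 7 := by
      rw [← Real.exp_nat_mul]
      norm_num
    rw [h7]
    calc (500 : ℝ) ≤ 2.7 ^ 7 := by norm_num
      _ ≤ _ := pow_le_pow_left₀ (by norm_num) he1 7
  have h8 : ((5 * D : ℕ) : ℝ) / D = 5 := by
    push_cast
    field_simp
  rw [h8]
  linarith

/-- the parameters -/
lemma params3 (t h a : ℝ) (ht : 0 ≤ t) (hh : 0 ≤ h) (hth : t + 2 * h < 2) (ha : 0 < a) (n₀ : ℕ) :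
    ∃ N₀ : ℕ, 0 < N₀ ∧ ∀ N : ℕ, N₀ ≤ N → ∀ D : ℕ, 1 ≤ D → (D : ℝ) ≤ (N : ℝ) ^ h →
      n₀ ≤ N / (600 * D) ∧ 1 ≤ N / (600 * D) ∧
      (N : ℝ) ^ t ≤ ((N / (600 * D) : ℕ) : ℝ) ^ ((t / (1 - h) + 2) / 2) ∧
      ((N / (600 * D) : ℕ) : ℝ) ^ (-a) < 9 / 20 := by
  have h1 : h < 1 := by linarith
  have h2 : t / (1 - h) < 2 := by
    rw [div_lt_iff₀ (by linarith)]
    linarith
  have h3 : 0 ≤ t / (1 - h) := div_nonneg ht (by linarith)
  obtain ⟨u, hu⟩ : ∃ u, u = (t / (1 - h) + 2) / 2 := ⟨_, rfl⟩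
  rw [← hu]
  have hu0 : 0 < u := by linarith
  have hu1 : 0 < (1 - h) * u - t := by
    have h4 : t / (1 - h) < u := by linarith
    rw [div_lt_iff₀ (by linarith)] at h4
    linarith
  have e0 : ∀ᶠ n : ℕ in atTop, (n : ℝ) ^ (-a) < 9 / 20 :=
    ((tendsto_rpow_neg_atTop ha).comp tendsto_natCast_atTop_atTop).eventually_lt_const
      (by norm_num)
  obtain ⟨n₁, hn₁⟩ := eventually_atTop.mp e0
  have e1 : ∀ᶠ N : ℕ in atTop, (1200 : ℝ) ^ u ≤ (N : ℝ) ^ ((1 - h) * u - t) :=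
    ((tendsto_rpow_atTop hu1).comp tendsto_natCast_atTop_atTop).eventually_ge_atTop _
  have e2 : ∀ᶠ N : ℕ in atTop, (1200 * (n₀ + n₁ + 1) : ℝ) ≤ (N : ℝ) ^ (1 - h) :=
    ((tendsto_rpow_atTop (by linarith : 0 < 1 - h)).comp
      tendsto_natCast_atTop_atTop).eventually_ge_atTop _
  obtain ⟨N₀, hN₀⟩ := eventually_atTop.mp (e1.and (e2.and (eventually_ge_atTop 1)))
  refine ⟨N₀ + 1, by omega, fun N hN D hD hDN => ?_⟩
  obtain ⟨g1, g2, g3⟩ := hN₀ N (by omega)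
  have hNpos : (0 : ℝ) < N := by exact_mod_cast g3
  have hDR : (1 : ℝ) ≤ D := by exact_mod_cast hD
  have hD0 : (0 : ℝ) < D := by linarith
  have h4 : (N : ℝ) ^ (1 - h) ≤ N / D := by
    rw [le_div_iff₀ hD0]
    calc (N : ℝ) ^ (1 - h) * D ≤ (N : ℝ) ^ (1 - h) * (N : ℝ) ^ h :=
          mul_le_mul_of_nonneg_left hDN (by positivity)
      _ = N := by
          rw [← Real.rpow_add hNpos]
          simp
  have h5 : (N : ℝ) < (((N / (600 * D) : ℕ) : ℝ) + 1) * (600 * D) := by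
    have h6 : N < (N / (600 * D) + 1) * (600 * D) := by
      have h7 := Nat.div_add_mod N (600 * D)
      have h8 := Nat.mod_lt N (by positivity : 600 * D > 0)
      calc N = 600 * D * (N / (600 * D)) + N % (600 * D) := h7.symm
        _ < 600 * D * (N / (600 * D)) + 600 * D := by omega
        _ = _ := by ring
    exact_mod_cast h6
  have h6 : (N : ℝ) / D < (((N / (600 * D) : ℕ) : ℝ) + 1) * 600 := by
    rw [div_lt_iff₀ hD0]
    linarith
  obtain ⟨n, hn⟩ : ∃ n, n = N / (600 * D) := ⟨_, rfl⟩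
  rw [← hn] at h5 h6 ⊢
  have h7 : (N : ℝ) ^ (1 - h) ≤ (n + 1) * 600 := h4.trans h6.le
  have h8 : (2 * (n₀ + n₁ + 1) : ℝ) ≤ n + 1 := by linarith
  have h9 : 2 * (n₀ + n₁ + 1) ≤ n + 1 := by exact_mod_cast h8
  have h10 : (1 : ℝ) ≤ n := by exact_mod_cast (by omega : 1 ≤ n)
  refine ⟨by omega, by omega, ?_, hn₁ n (by omega)⟩
  have h11 : (N : ℝ) ^ (1 - h) / 1200 ≤ n := by
    rw [div_le_iff₀ (by norm_num)]
    linarith
  calc (N : ℝ) ^ t = (N : ℝ) ^ ((1 - h) * u) / (N : ℝ) ^ ((1 - h) * u - t) := by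
        rw [← Real.rpow_sub hNpos]
        congr 1
        ring
    _ ≤ (N : ℝ) ^ ((1 - h) * u) / 1200 ^ u :=
        div_le_div_of_nonneg_left (by positivity) (by positivity) g1
    _ = ((N : ℝ) ^ (1 - h) / 1200) ^ u := by
        rw [Real.div_rpow (by positivity) (by norm_num), ← Real.rpow_mul hNpos.le]
    _ ≤ _ := Real.rpow_le_rpow (by positivity) h11 hu0.le

/-- **3SUM needs reliable negations.** -/
theorem sum_fault (t h b : ℝ) (ht : 0 ≤ t) (hh : 0 ≤ h) (hb : 0 < b) (hth : t + 2 * h < 2) :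
    ∃ N₀ : ℕ, ∀ N : ℕ, N₀ ≤ N → ∀ U : ℕ, (N : ℝ) ^ (1 + h + b) ≤ U →
      ∀ D : ℕ, 1 ≤ D → (D : ℝ) ≤ (N : ℝ) ^ h →
      ∀ (R : Type) [Fintype R] [Nonempty R] (C : R → LiteralCircuit (Fin U)),
      (∀ x : Fin U → Bool, size x ≤ N → HasSum x → 4 / 5 ≤ faultyAcceptance C D x) →
      (∀ x : Fin U → Bool, size x ≤ N → ¬ HasSum x → acceptance C x ≤ 1 / 4) →
      ∃ r, (N : ℝ) ^ t < (C r).s := by
  have h1 : h < 1 := by linarith
  have h2 : t / (1 - h) < 2 := by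
    rw [div_lt_iff₀ (by linarith)]
    linarith
  have h3 : 0 ≤ t / (1 - h) := div_nonneg ht (by linarith)
  obtain ⟨a, ha, n₀, hn₀⟩ := sum_hard2 0 ((t / (1 - h) + 2) / 2) b le_rfl (by linarith) hb
    (by linarith)
  obtain ⟨N₀, hN₀p, hN₀⟩ := params3 t h a ht hh hth ha n₀
  refine ⟨N₀, fun N hN U hU D hD hDN R _ _ C c1 c2 => ?_⟩
  obtain ⟨g1, g2, g3, g4⟩ := hN₀ N hN D hD hDN
  by_contra hlt
  push Not at hlt
  have hNp : 0 < N := lt_of_lt_of_le hN₀p hN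
  have hNpos : (0 : ℝ) < N := by exact_mod_cast hNp
  have hDR : (1 : ℝ) ≤ D := by exact_mod_cast hD
  have hD0 : (0 : ℝ) < D := by linarith
  obtain ⟨r₀, -, hr₀⟩ := Finset.exists_max_image (univ : Finset R) (fun r => (C r).s)
    Finset.univ_nonempty
  obtain ⟨Λ, _, _, yes, no, hyes, hno, hcirc⟩ := hn₀ _ g1
  have hnD : 600 * D * (N / (600 * D)) ≤ N := Nat.mul_div_le N (600 * D)
  obtain ⟨n, hn⟩ : ∃ n, n = N / (600 * D) := ⟨_, rfl⟩
  rw [← hn] at g1 g2 g3 g4 hyes hno hcirc hnD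
  have hnDr : 600 * D * (n : ℝ) ≤ N := by exact_mod_cast hnD
  have hn1 : (1 : ℝ) ≤ n := by exact_mod_cast g2
  have hnN : (n : ℝ) ≤ N := by nlinarith
  -- the range
  have hrange : ∀ z : ℤ, 0 ≤ z → (z : ℝ) ≤ (n : ℝ) ^ (1 + 0 + b) →
      (z + 1) * (2 * ((12 * D ^ 2 : ℕ) : ℤ)) ≤ U := by
    intro z hz0 hz
    have k1 : (1 : ℝ) ≤ (n : ℝ) ^ (1 + 0 + b) := Real.one_le_rpow hn1 (by linarith)
    have k2 : ((z + 1 : ℤ) : ℝ) * (2 * (12 * (D : ℝ) ^ 2)) ≤ U := by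
      push_cast
      have k3 : (z : ℝ) + 1 ≤ 2 * (n : ℝ) ^ (1 + 0 + b) := by linarith
      have k4 : (n : ℝ) ^ (1 + 0 + b) = n * (n : ℝ) ^ b := by
        rw [add_zero, Real.rpow_add (by linarith), Real.rpow_one]
      have k5 : (n : ℝ) ^ b ≤ (N : ℝ) ^ b := Real.rpow_le_rpow (by linarith) hnN hb.le
      have k6 : (N : ℝ) ^ (1 + h + b) = N * (N : ℝ) ^ h * (N : ℝ) ^ b := by
        rw [Real.rpow_add hNpos, Real.rpow_add hNpos, Real.rpow_one]
      refine le_trans ?_ hU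
      calc ((z : ℝ) + 1) * (2 * (12 * (D : ℝ) ^ 2))
          ≤ 2 * (n : ℝ) ^ (1 + 0 + b) * (2 * (12 * (D : ℝ) ^ 2)) :=
            mul_le_mul_of_nonneg_right k3 (by positivity)
        _ = (48 * D * n) * D * (n : ℝ) ^ b := by
            rw [k4]
            ring
        _ ≤ N * (N : ℝ) ^ h * (N : ℝ) ^ b := by
            have k7 : 48 * D * (n : ℝ) ≤ N := by
              have : 0 ≤ (D : ℝ) * n := by positivity
              linarith
            gcongr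
        _ = _ := k6.symm
    have k8 : (((z + 1) * (2 * ((12 * D ^ 2 : ℕ) : ℤ)) : ℤ) : ℝ) ≤ ((U : ℤ) : ℝ) := by
      push_cast at k2 ⊢
      linarith
    exact_mod_cast k8
  refine core (U := U) (D := D) (K := 12 * D ^ 2) (n := n) (N := N) (J := 5 * D) (M := 7 * D ^ 2)
    hD hNp (by positivity) ?_ ?_ (bad_small D hD) ((n : ℝ) ^ (-a)) g4 yes no ?_ ?_ (C r₀).s ?_ C
    (fun r => hr₀ r (Finset.mem_univ _)) c1 c2
  · nlinarith
  · calc 50 * (n * (12 * D ^ 2)) = (600 * D * n) * D := by ring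
      _ ≤ N * D := Nat.mul_le_mul_right D hnD
  · intro l
    obtain ⟨y1, y2, y3⟩ := hyes l
    exact ⟨y1, fun z hz => ⟨(y2 z hz).1, hrange z (y2 z hz).1 (y2 z hz).2⟩, y3⟩
  · intro l
    obtain ⟨y1, y2, y3⟩ := hno l
    exact ⟨y1, y3⟩
  · intro C' hT' hS'
    have q1 := hcirc C'.S C'.T C'.wd C'.a C'.op C'.θ C'.val C'.o C'.τ C'.htop C'.hmon C'.hT
      C'.hval (by
        rw [hT', Finset.sum_empty, Nat.add_zero]
        have q2 : (C'.S : ℝ) ≤ ((C r₀).s : ℝ) := by exact_mod_cast hS'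
        exact q2.trans ((hlt r₀).trans g3)) (by
        rw [hT', Finset.prod_empty, Real.rpow_zero]
        norm_num)
    exact q1

end Pool.Agent.V11231.SMF
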