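import Pool.Agent.V11231.SMF.Count
import Pool.Agent.V11231.SMF.Hard

/-! Sets of integers hidden in the faulty positions of a larger range. -/

set_option autoImplicit false
set_option linter.unusedSectionVars false
set_option linter.unusedVariables false

namespace Pool.Agent.V11231.SMF

open Finset Pool.Agent.V11231.FLT Pool.Agent.V11231.VCF
open Pool.Agent.H560R2 (Has3)

/-- The set of the numbers `z < U` with `x z = true` has three different elements `a`, `b`, `c` with
`a + b = c`. -/
def HasSum {U : ℕ} (x : Fin U → Bool) : Prop :=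
  ∃ a b c : Fin U, x a = true ∧ x b = true ∧ x c = true ∧ a ≠ b ∧ a ≠ c ∧ b ≠ c ∧
    (a : ℕ) + b = c

/-- the number of the elements of the set -/
def size {U : ℕ} (x : Fin U → Bool) : ℕ := (univ.filter fun z => x z = true).card

variable {U D K : ℕ}

/-- the positions in the classes of the elements of `S` -/
def posZ (U K : ℕ) (S : Finset ℤ) : Set (Fin U) :=
  {e | (((e : ℕ) / (2 * K) : ℕ) : ℤ) ∈ S ∧ (e : ℕ) % (2 * K) < K}

open Classical in
/-- the literals are constants or bits of the small set -/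
lemma host_lsubZ (K : ℕ) (f : Fin U → Fin D) :
    ∃ (σ : Fin U × Bool → Option ℤ) (c : Fin U × Bool → Bool),
      ∀ S : Finset ℤ, literals (mix (posZ U K S) (fun _ => false) f) (flt f) =
        Pool.Agent.Y630.TF.lsub σ c (fun z => decide (z ∈ S)) := by
  refine ⟨fun q => if q.2 = true ∧ (f q.1 : ℕ) = 0 ∧ (q.1 : ℕ) % (2 * K) < K then
      some ((((q.1 : ℕ) / (2 * K) : ℕ) : ℤ)) else none,
    fun q => if q.2 = true then false else if (f q.1 : ℕ) = 0 then false else true,
    fun S => ?_⟩
  funext q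
  unfold Pool.Agent.Y630.TF.lsub
  by_cases hq : q.2 = true ∧ (f q.1 : ℕ) = 0 ∧ (q.1 : ℕ) % (2 * K) < K
  · dsimp only
    rw [if_pos hq]
    simp only [Option.elim_some]
    unfold literals
    rw [if_pos hq.1]
    unfold mix
    by_cases hS : (((q.1 : ℕ) / (2 * K) : ℕ) : ℤ) ∈ S
    · rw [if_pos (show q.1 ∈ posZ U K S from ⟨hS, hq.2.2⟩), decide_eq_true hS]
      simpa using hq.2.1
    · rw [if_neg (fun h : q.1 ∈ posZ U K S => hS h.1), decide_eq_false hS]
  · dsimp only
    rw [if_neg hq]
    simp only [Option.elim_none]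
    unfold literals
    by_cases hb : q.2 = true
    · rw [if_pos hb, if_pos hb]
      unfold mix
      by_cases hp : q.1 ∈ posZ U K S
      · rw [if_pos hp]
        have h6 : ¬ (f q.1 : ℕ) = 0 := fun h7 => hq ⟨hb, h7, hp.2⟩
        simp [h6]
      · rw [if_neg hp]
    · rw [if_neg hb, if_neg hb]
      by_cases hf : (f q.1 : ℕ) = 0
      · have h2 : q.1 ∈ flt f := hf
        rw [if_pos h2, if_pos hf]
      · have h2 : q.1 ∉ flt f := hf
        rw [if_neg h2, if_neg hf]
        unfold mix
        by_cases hp : q.1 ∈ posZ U K S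
        · rw [if_pos hp]
          simp [hf]
        · rw [if_neg hp]
          rfl

open Classical in
lemma mix_true (K : ℕ) (S : Finset ℤ) (f : Fin U → Fin D) (e : Fin U) :
    mix (posZ U K S) (fun _ => false) f e = true ↔ e ∈ posZ U K S ∧ (f e : ℕ) = 0 := by
  unfold mix
  by_cases h : e ∈ posZ U K S
  · rw [if_pos h, decide_eq_true_eq]
    exact ⟨fun h1 => ⟨h, h1⟩, fun h1 => h1.2⟩
  · rw [if_neg h]
    simp [h]

/-- no new solutions -/
lemma no_sum (hK : 0 < K) {S : Finset ℤ} (hS : ¬ Deg3 S) (f : Fin U → Fin D) :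
    ¬ HasSum (mix (posZ U K S) (fun _ => false) f) := by
  rintro ⟨a, b, c, ha, hb, hc, -, -, -, h⟩
  rw [mix_true] at ha hb hc
  obtain ⟨⟨ha1, ha2⟩, -⟩ := ha
  obtain ⟨⟨hb1, hb2⟩, -⟩ := hb
  obtain ⟨⟨hc1, hc2⟩, -⟩ := hc
  apply hS
  refine ⟨_, ha1, _, hb1, _, hc1, ?_⟩
  have hK2 : 0 < 2 * K := by omega
  have h1 := Nat.div_add_mod (a : ℕ) (2 * K)
  have h2 := Nat.div_add_mod (b : ℕ) (2 * K)
  have h4 : (c : ℕ) / (2 * K) = (a : ℕ) / (2 * K) + (b : ℕ) / (2 * K) := by
    rw [← h]
    rw [← h1, ← h2]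
    rw [show 2 * K * ((a : ℕ) / (2 * K)) + (a : ℕ) % (2 * K) + (2 * K * ((b : ℕ) / (2 * K)) +
      (b : ℕ) % (2 * K)) = ((a : ℕ) % (2 * K) + (b : ℕ) % (2 * K)) +
      2 * K * ((a : ℕ) / (2 * K) + (b : ℕ) / (2 * K)) by ring]
    rw [Nat.add_mul_div_left _ _ hK2, Nat.div_eq_of_lt (by omega), zero_add]
    rw [h1, h2]
  rw [h4]
  push_cast
  rfl

/-- the position `i` in the class of `a` -/
def pt {U : ℕ} (K a i : ℕ) (h : a * (2 * K) + 2 * K ≤ U) (hi : i < 2 * K) : Fin U :=
  ⟨a * (2 * K) + i, by omega⟩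

/-- There are faulty positions in the classes of `a`, `b`, `c` which form a solution. -/
def Good (K a b c : ℕ) (f : Fin U → Fin D) : Prop :=
  ∃ i j : ℕ, i + j < K ∧ ∃ x y z : Fin U, (x : ℕ) = a * (2 * K) + i ∧ (y : ℕ) = b * (2 * K) + j ∧
    (z : ℕ) = c * (2 * K) + (i + j) ∧ (f x : ℕ) = 0 ∧ (f y : ℕ) = 0 ∧ (f z : ℕ) = 0

lemma has_sum {S : Finset ℤ} {a b c : ℕ} (hab : a ≠ b) (hac : a ≠ c) (hbc : b ≠ c)
    (habc : a + b = c) (ha : (a : ℤ) ∈ S) (hb : (b : ℤ) ∈ S) (hc : (c : ℤ) ∈ S)
    (f : Fin U → Fin D) (hf : Good K a b c f) :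
    HasSum (mix (posZ U K S) (fun _ => false) f) := by
  obtain ⟨i, j, hij, x, y, z, hx, hy, hz, f1, f2, f3⟩ := hf
  have key : ∀ (w : Fin U) (d k : ℕ), (w : ℕ) = d * (2 * K) + k → k < K →
      (w : ℕ) / (2 * K) = d ∧ (w : ℕ) % (2 * K) = k := by
    intro w d k hw hk
    rw [hw, Nat.mul_comm d]
    constructor
    · rw [Nat.mul_add_div (by omega), Nat.div_eq_of_lt (by omega), Nat.add_zero]
    · rw [Nat.mul_add_mod, Nat.mod_eq_of_lt (by omega)]
  obtain ⟨x1, x2⟩ := key x a i hx (by omega)
  obtain ⟨y1, y2⟩ := key y b j hy (by omega)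
  obtain ⟨z1, z2⟩ := key z c (i + j) hz hij
  refine ⟨x, y, z, ?_, ?_, ?_, ?_, ?_, ?_, ?_⟩
  · rw [mix_true]
    exact ⟨⟨by rw [x1]; exact ha, by omega⟩, f1⟩
  · rw [mix_true]
    exact ⟨⟨by rw [y1]; exact hb, by omega⟩, f2⟩
  · rw [mix_true]
    exact ⟨⟨by rw [z1]; exact hc, by omega⟩, f3⟩
  · intro h
    rw [h, y1] at x1
    exact hab x1.symm
  · intro h
    rw [h, z1] at x1
    exact hac x1.symm
  · intro h
    rw [h, z1] at y1
    exact hbc y1.symm
  · rw [hx, hy, hz, ← habc]
    ring

open Classical in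
/-- most functions are good -/
lemma card_not_good (hD : 0 < D) {a b c J M : ℕ} (hab : a ≠ b) (hac : a ≠ c) (hbc : b ≠ c)
    (ha : a * (2 * K) + 2 * K ≤ U) (hb : b * (2 * K) + 2 * K ≤ U)
    (hc : c * (2 * K) + 2 * K ≤ U) (hJM : J + M ≤ K) :
    ((univ.filter fun f : Fin U → Fin D => ¬ Good K a b c f).card : ℝ) ≤
      ((1 - 1 / (D : ℝ)) ^ J + J / D * (1 - 1 / (D : ℝ) ^ 2) ^ M) * (D : ℝ) ^ Fintype.card (Fin U) := by
  have hDR : (0 : ℝ) < D := by exact_mod_cast hD
  rcases Nat.eq_zero_or_pos K with hK | hK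
  · have hJ0 : J = 0 := by omega
    have hM0 : M = 0 := by omega
    have h1 : ((univ.filter fun f : Fin U → Fin D => ¬ Good K a b c f).card : ℝ) ≤
        (Fintype.card (Fin U → Fin D) : ℝ) := by exact_mod_cast Finset.card_le_univ _
    refine h1.trans ?_
    rw [Fintype.card_fun, Fintype.card_fin, hJ0, hM0]
    push_cast
    simp
  have hdis : ∀ (d d' k k' : ℕ), d ≠ d' → k < 2 * K → k' < 2 * K →
      d * (2 * K) + k ≠ d' * (2 * K) + k' := by
    intro d d' k k' hd hk hk' h
    apply hd
    have h1 : (d * (2 * K) + k) / (2 * K) = d := by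
      rw [Nat.mul_comm d, Nat.mul_add_div (by omega), Nat.div_eq_of_lt (by omega), Nat.add_zero]
    have h2 : (d' * (2 * K) + k') / (2 * K) = d' := by
      rw [Nat.mul_comm d', Nat.mul_add_div (by omega), Nat.div_eq_of_lt (by omega), Nat.add_zero]
    rw [← h1, ← h2, h]
  -- positions
  set B : Finset (Fin U) := (univ : Finset (Fin J)).image
    (fun j : Fin J => (⟨b * (2 * K) + j, by have := j.isLt; omega⟩ : Fin U)) with hBdef
  have hBc : B.card = J := by
    rw [hBdef, Finset.card_image_of_injective, Finset.card_univ, Fintype.card_fin]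
    intro i j hij
    have h1 := Fin.mk.inj hij
    exact Fin.ext (by omega)
  set PY : ℕ → Fin U → Prop := fun j y => (y : ℕ) = b * (2 * K) + j with hPY
  have hsub : (univ.filter fun f : Fin U → Fin D => ¬ Good K a b c f) ⊆
      (univ.filter fun f : Fin U → Fin D => ∀ e ∈ B, (f e : ℕ) ≠ 0) ∪
      (univ : Finset (Fin J)).biUnion fun j => univ.filter fun f : Fin U → Fin D =>
        (f (⟨b * (2 * K) + j, by have := j.isLt; omega⟩ : Fin U) : ℕ) = 0 ∧
        ∀ i ∈ (univ : Finset (Fin M)),
          ¬ ((f (⟨a * (2 * K) + i, by have := i.isLt; omega⟩ : Fin U) : ℕ) = 0 ∧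
          (f (⟨c * (2 * K) + (i + j), by have := i.isLt; have := j.isLt; omega⟩ : Fin U) : ℕ) =
            0) := by
    intro f hf
    rw [Finset.mem_filter] at hf
    rw [Finset.mem_union]
    by_cases h1 : ∀ e ∈ B, (f e : ℕ) ≠ 0
    · left
      rw [Finset.mem_filter]
      exact ⟨Finset.mem_univ _, h1⟩
    · right
      push Not at h1
      obtain ⟨e, he, hfe⟩ := h1
      rw [hBdef, Finset.mem_image] at he
      obtain ⟨j, _, rfl⟩ := he
      rw [Finset.mem_biUnion]
      refine ⟨j, Finset.mem_univ _, ?_⟩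
      rw [Finset.mem_filter]
      refine ⟨Finset.mem_univ _, hfe, fun i _ h2 => hf.2 ?_⟩
      have hi := i.isLt
      have hj := j.isLt
      exact ⟨i, j, by omega, _, _, _, rfl, rfl, rfl, h2.1, hfe, h2.2⟩
  have h1 : ((univ.filter fun f : Fin U → Fin D => ¬ Good K a b c f).card : ℝ) ≤
      ((univ.filter fun f : Fin U → Fin D => ∀ e ∈ B, (f e : ℕ) ≠ 0).card : ℝ) +
      ∑ j : Fin J, ((univ.filter fun f : Fin U → Fin D =>
        (f (⟨b * (2 * K) + j, by have := j.isLt; omega⟩ : Fin U) : ℕ) = 0 ∧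
        ∀ i ∈ (univ : Finset (Fin M)),
          ¬ ((f (⟨a * (2 * K) + i, by have := i.isLt; omega⟩ : Fin U) : ℕ) = 0 ∧
          (f (⟨c * (2 * K) + (i + j), by have := i.isLt; have := j.isLt; omega⟩ : Fin U) : ℕ) =
            0)).card : ℝ) := by
    have h2 := (Finset.card_le_card hsub).trans
      ((Finset.card_union_le _ _).trans (Nat.add_le_add_left Finset.card_biUnion_le _))
    exact_mod_cast h2
  refine h1.trans ?_
  rw [add_mul]
  apply add_le_add
  · have e := card_avoid hD B
    rw [hBc] at e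
    refine le_of_eq ?_
    rw [← e]
    congr!
  · have h2 : ∀ j : Fin J, ((univ.filter fun f : Fin U → Fin D =>
        (f (⟨b * (2 * K) + j, by have := j.isLt; omega⟩ : Fin U) : ℕ) = 0 ∧
        ∀ i ∈ (univ : Finset (Fin M)),
          ¬ ((f (⟨a * (2 * K) + i, by have := i.isLt; omega⟩ : Fin U) : ℕ) = 0 ∧
          (f (⟨c * (2 * K) + (i + j), by have := i.isLt; have := j.isLt; omega⟩ : Fin U) : ℕ) =
            0)).card : ℝ) =
        (1 - 1 / (D : ℝ) ^ 2) ^ M * (1 / D * (D : ℝ) ^ Fintype.card (Fin U)) := by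
      intro j
      have hj := j.isLt
      have h3 := card_pairs hD (fun f : Fin U → Fin D =>
          (f (⟨b * (2 * K) + j, by omega⟩ : Fin U) : ℕ) = 0)
        (fun i : Fin M => (⟨a * (2 * K) + i, by have := i.isLt; omega⟩ : Fin U))
        (fun i : Fin M => (⟨c * (2 * K) + (i + j), by have := i.isLt; omega⟩ : Fin U))
        (by
          intro i i' h
          have e1 := i.isLt
          have e2 := i'.isLt
          exact hdis a c i (i' + j) hac (by omega) (by omega) (Fin.mk.inj h))
        (by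
          intro i i' h
          have h4 := Fin.mk.inj h
          exact Fin.ext (by omega))
        (by
          intro i i' h
          have h4 := Fin.mk.inj h
          exact Fin.ext (by omega))
        (by
          intro i f x
          have e1 := i.isLt
          rw [Function.update_of_ne]
          intro h
          exact hdis b a j i hab.symm (by omega) (by omega) (Fin.mk.inj h))
        (by
          intro i f x
          have e1 := i.isLt
          rw [Function.update_of_ne]
          intro h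
          exact hdis b c j (i + j) hbc (by omega) (by omega) (Fin.mk.inj h))
        (univ : Finset (Fin M))
      have h4 := card_zero hD (fun _ : Fin U → Fin D => True)
        (⟨b * (2 * K) + j, by omega⟩ : Fin U) (fun _ _ => Iff.rfl)
      have h5 : (D : ℝ) * ((univ.filter fun f : Fin U → Fin D =>
          (f (⟨b * (2 * K) + j, by omega⟩ : Fin U) : ℕ) = 0).card : ℝ) =
          (D : ℝ) ^ Fintype.card (Fin U) := by
        have h6 := h4
        simp only [true_and, Finset.filter_true] at h6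
        rw [Finset.card_univ, Fintype.card_fun, Fintype.card_fin D] at h6
        push_cast at h6
        rw [← h6]
      refine Eq.trans (Eq.trans ?_ h3) ?_
      · congr!
      · rw [Finset.card_univ, Fintype.card_fin]
        congr 1
        rw [← h5]
        rw [one_div, inv_mul_cancel_left₀ hDR.ne']
        congr!
    rw [Finset.sum_congr rfl fun j _ => h2 j, Finset.sum_const, Finset.card_univ,
      Fintype.card_fin, nsmul_eq_mul]
    refine le_of_eq ?_
    ring

open Classical in
/-- the host set is small for most functions -/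
lemma card_large (hD : 0 < D) (S : Finset ℤ) (N : ℕ) (hN : 50 * (S.card * K) ≤ N * D)
    (hNpos : 0 < N) :
    ((univ.filter fun f : Fin U → Fin D =>
      N < size (mix (posZ U K S) (fun _ => false) f)).card : ℝ) ≤
      1 / 50 * (D : ℝ) ^ Fintype.card (Fin U) := by
  have hDR : (0 : ℝ) < D := by exact_mod_cast hD
  have hNR : (0 : ℝ) < N := by exact_mod_cast hNpos
  set B : Finset (Fin U) := univ.filter fun e => e ∈ posZ U K S with hB
  have hsz : ∀ f : Fin U → Fin D, size (mix (posZ U K S) (fun _ => false) f) =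
      (B.filter fun e => (f e : ℕ) = 0).card := by
    intro f
    unfold size
    congr 1
    ext e
    rw [Finset.mem_filter, Finset.mem_filter, hB, Finset.mem_filter, mix_true]
    simp
  have hBc : B.card ≤ S.card * K := by
    rcases Nat.eq_zero_or_pos K with hK | hK
    · have h1 : B = ∅ := by
        rw [hB, Finset.filter_eq_empty_iff]
        rintro e _ ⟨_, h2⟩
        omega
      rw [h1]
      simp
    have h1 : B.card ≤ (S ×ˢ Finset.range K).card := by
      refine Finset.card_le_card_of_injOn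
        (fun e => ((((e : ℕ) / (2 * K) : ℕ) : ℤ), (e : ℕ) % (2 * K))) ?_ ?_
      · intro e he
        rw [Finset.mem_coe, hB, Finset.mem_filter] at he
        rw [Finset.mem_coe, Finset.mem_product, Finset.mem_range]
        exact he.2
      · intro e _ e' _ hee
        simp only [Prod.mk.injEq, Nat.cast_inj] at hee
        have h2 := Nat.div_add_mod (e : ℕ) (2 * K)
        have h3 := Nat.div_add_mod (e' : ℕ) (2 * K)
        rw [hee.1, hee.2] at h2
        exact Fin.ext (by omega)
    rwa [Finset.card_product, Finset.card_range] at h1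
  have h1 := card_many hD B N
  have h2 : (univ.filter fun f : Fin U → Fin D =>
      N < size (mix (posZ U K S) (fun _ => false) f)) =
      univ.filter fun f : Fin U → Fin D => N < (B.filter fun e => (f e : ℕ) = 0).card := by
    ext f
    rw [Finset.mem_filter, Finset.mem_filter, hsz]
  rw [h2]
  have h3 : 50 * (B.card : ℝ) ≤ N * D := by
    have h4 : 50 * B.card ≤ N * D := (Nat.mul_le_mul_left 50 hBc).trans hN
    exact_mod_cast h4
  have h5 : (0 : ℝ) ≤ (D : ℝ) ^ Fintype.card (Fin U) := by positivity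
  have h6 : (N : ℝ) * D * ((univ.filter fun f : Fin U → Fin D =>
      N < (B.filter fun e => (f e : ℕ) = 0).card).card : ℝ) ≤
      (N : ℝ) * D * (1 / 50 * (D : ℝ) ^ Fintype.card (Fin U)) := by
    refine h1.trans ?_
    have h7 := mul_le_mul_of_nonneg_right h3 h5
    linarith
  exact le_of_mul_le_mul_left h6 (by positivity)

end Pool.Agent.V11231.SMF
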